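import Pool.Agent.W207.SW.SpecE

/-!
# SW-ONEE: from one-sided to small in the mean, even version
-/

set_option autoImplicit false

open Filter Topology Set MeasureTheory

namespace W22.SW.OneE

open W207.SW

/-- exponentials absorb powers -/
theorem poly_exp (a : ℝ) (ha : 0 < a) (n : ℕ) :
    ∃ c : ℝ, 0 < c ∧ ∀ R : ℝ, 0 ≤ R → (1 + R) ^ n ≤ c * Real.exp (a * R) := by
  refine ⟨n.factorial / a ^ n * Real.exp a, by positivity, fun R hR => ?_⟩
  have h1 := Real.pow_div_factorial_le_exp (a * (1 + R)) (by positivity) n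
  have h2 : Real.exp (a * (1 + R)) = Real.exp a * Real.exp (a * R) := by
    rw [← Real.exp_add]; ring_nf
  rw [div_le_iff₀ (by positivity), mul_pow, h2] at h1
  have ha' : 0 < a ^ n := by positivity
  rw [div_mul_eq_mul_div, div_mul_eq_mul_div, le_div_iff₀ ha']
  linarith

/-- the averaged kernel -/
noncomputable def hh (b : ℝ → ℝ) (x y u : ℝ) : ℝ := ∫ s in x..y, (b (u - s) + b (u + s))

section
variable {b : ℝ → ℝ} (hb : Continuous b)
include hb

theorem hh_cont (x y : ℝ) : Continuous (hh b x y) := by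
  unfold hh
  refine intervalIntegral.continuous_parametric_intervalIntegral_of_continuous' ?_ x y
  exact (hb.comp (continuous_fst.sub continuous_snd)).add
    (hb.comp (continuous_fst.add continuous_snd))

theorem hh_ii (x y u : ℝ) :
    IntervalIntegrable (fun s => b (u - s) + b (u + s)) volume x y := by
  apply Continuous.intervalIntegrable
  fun_prop

theorem hh_le {x y : ℝ} (hxy : x ≤ y) (u B : ℝ)
    (h : ∀ s ∈ Icc x y, b (u - s) ≤ B ∧ b (u + s) ≤ B) : hh b x y u ≤ 2 * B * (y - x) := by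
  have h1 : hh b x y u ≤ ∫ s in x..y, (2 * B) := by
    refine intervalIntegral.integral_mono_on hxy (hh_ii hb x y u)
      (by simp) (fun s hs => ?_)
    have := h s hs
    linarith [this.1, this.2]
  refine h1.trans (le_of_eq ?_)
  rw [intervalIntegral.integral_const, smul_eq_mul]
  ring

omit hb in
theorem hh_nonneg (h0 : ∀ u, 0 ≤ b u) {x y : ℝ} (hxy : x ≤ y) (u : ℝ) : 0 ≤ hh b x y u :=
  intervalIntegral.integral_nonneg hxy fun _ _ => add_nonneg (h0 _) (h0 _)

theorem hh_low (h0 : ∀ u, 0 ≤ b u) {x y u D : ℝ} (hD : 0 ≤ D) (h1 : x + D ≤ u)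
    (h2 : u + D ≤ y) : ∫ t in (-D)..D, b t ≤ hh b x y u := by
  have hxy : x ≤ y := by linarith
  have e1 : ∫ s in x..y, b (u - s) = ∫ t in (u - y)..(u - x), b t :=
    intervalIntegral.integral_comp_sub_left b u
  have e2 : ∫ t in (-D)..D, b t ≤ ∫ t in (u - y)..(u - x), b t :=
    intervalIntegral.integral_mono_interval (by linarith) (by linarith) (by linarith)
      (Eventually.of_forall h0) (hb.intervalIntegrable _ _)
  have e3 : ∫ s in x..y, b (u - s) ≤ hh b x y u := by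
    refine intervalIntegral.integral_mono_on hxy ?_ (hh_ii hb x y u) (fun _ _ => ?_)
    · apply Continuous.intervalIntegrable
      fun_prop
    · exact le_add_of_nonneg_right (h0 _)
  linarith

end

/-- four powers against two -/
theorem ratio_le {D u : ℝ} (hD : 1 ≤ D) (hu : D ≤ |u|) :
    (D / |u|) ^ 4 ≤ 2 * D ^ 2 * (1 + u ^ 2)⁻¹ := by
  have hu0 : 0 < |u| := by linarith
  have h1 : D / |u| ≤ 1 := by rw [div_le_one hu0]; exact hu
  have h0 : 0 ≤ D / |u| := by positivity
  have h2 : (D / |u|) ^ 4 ≤ (D / |u|) ^ 2 := pow_le_pow_of_le_one h0 h1 (by norm_num)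
  refine h2.trans ?_
  rw [div_pow, sq_abs, ← div_eq_mul_inv, div_le_div_iff₀ (by rw [← sq_abs]; positivity)
    (by positivity)]
  have h3 : 1 ≤ u ^ 2 := by
    rw [← sq_abs]
    nlinarith
  nlinarith [sq_nonneg D, mul_nonneg (sq_nonneg D) (sub_nonneg.2 h3)]

/-- mass in the middle -/
theorem mass {b : ℝ → ℝ} {K q D : ℝ} (hq : 0 ≤ K * q) (hbi : Integrable b)
    (h1 : ∫ u, b u = 1) (hD : 1 ≤ D)
    (ht : ∀ u, D ≤ |u| → b u ≤ K * q * (D / |u|) ^ 4) :
    1 - K * q * (2 * D ^ 2) * Real.pi ≤ ∫ t in (-D)..D, b t := by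
  have e1 : (∫ t in Ioc (-D) D, b t) + ∫ t in (Ioc (-D) D)ᶜ, b t = ∫ t, b t :=
    integral_add_compl measurableSet_Ioc hbi
  have e2 : ∫ t in (Ioc (-D) D)ᶜ, b t ≤ ∫ t in (Ioc (-D) D)ᶜ, K * q * (2 * D ^ 2) * (1 + t ^ 2)⁻¹ := by
    refine setIntegral_mono_on hbi.integrableOn
      (integrable_inv_one_add_sq.const_mul _).integrableOn measurableSet_Ioc.compl fun t h => ?_
    have h2 : D ≤ |t| := by
      rw [mem_compl_iff, mem_Ioc, not_and_or] at h
      rcases h with h | h
      · rw [le_abs]; right; linarith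
      · rw [le_abs]; left; linarith
    refine (ht t h2).trans ?_
    have := mul_le_mul_of_nonneg_left (ratio_le hD h2) hq
    linarith
  have e3 : ∫ t in (Ioc (-D) D)ᶜ, K * q * (2 * D ^ 2) * (1 + t ^ 2)⁻¹ ≤
      ∫ t, K * q * (2 * D ^ 2) * (1 + t ^ 2)⁻¹ := by
    refine setIntegral_le_integral (integrable_inv_one_add_sq.const_mul _) ?_
    refine Eventually.of_forall fun t => ?_
    have : 0 ≤ K * q * (2 * D ^ 2) := by positivity
    positivity
  have e4 : ∫ t : ℝ, K * q * (2 * D ^ 2) * (1 + t ^ 2)⁻¹ = K * q * (2 * D ^ 2) * Real.pi := by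
    rw [integral_const_mul, integral_univ_inv_one_add_sq]
  rw [intervalIntegral.integral_of_le (by linarith)]
  linarith

/-- powers of ratios outside the window -/
theorem ratio_out {δ R u s : ℝ} (hδ : 0 < δ) (hR : 1 ≤ R) (hu : 0 < u)
    (hW : u ∉ Ioo R ((1 + δ) * R)) (hs : s ∈ Icc ((1 + δ / 4) * R) ((1 + 3 * δ / 4) * R)) :
    (δ * R / 12 ≤ |u - s| ∧ δ * R / 12 / |u - s| ≤ (1 + δ) * (1 + R) / (1 + u)) ∧
    (δ * R / 12 ≤ |u + s| ∧ δ * R / 12 / |u + s| ≤ (1 + δ) * (1 + R) / (1 + u)) := by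
  obtain ⟨hs1, hs2⟩ := hs
  have hδR : 0 < δ * R := by positivity
  have hs0 : 0 < s := by nlinarith
  have key : ∀ v : ℝ, δ * R / 12 ≤ |v| → (|v| * (12 * (1 + δ) * (1 + R)) ≥ δ * R * (1 + u)) →
      δ * R / 12 / |v| ≤ (1 + δ) * (1 + R) / (1 + u) := by
    intro v h1 h2
    have hv : 0 < |v| := by linarith
    rw [div_le_div_iff₀ hv (by linarith)]
    linarith
  rw [mem_Ioo, not_and_or, not_lt, not_lt] at hW
  rcases hW with h | h
  · -- `u ≤ R`
    have a1 : δ * R / 12 ≤ |u - s| := by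
      rw [abs_sub_comm, abs_of_nonneg (by nlinarith)]
      nlinarith
    have a2 : δ * R / 12 ≤ |u + s| := by
      rw [abs_of_pos (by linarith)]
      nlinarith
    have a3 : ∀ v : ℝ, δ * R / 12 ≤ |v| → |v| * (12 * (1 + δ) * (1 + R)) ≥ δ * R * (1 + u) := by
      intro v hv
      have b1 : δ * R * (1 + u) ≤ δ * R * ((1 + δ) * (1 + R)) := by
        apply mul_le_mul_of_nonneg_left _ hδR.le
        nlinarith
      have b2 : δ * R / 12 * (12 * (1 + δ) * (1 + R)) ≤ |v| * (12 * (1 + δ) * (1 + R)) :=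
        mul_le_mul_of_nonneg_right hv (by positivity)
      linarith
    exact ⟨⟨a1, key _ a1 (a3 _ a1)⟩, ⟨a2, key _ a2 (a3 _ a2)⟩⟩
  · -- `(1+δ)R ≤ u`
    obtain ⟨t, ht0, rfl⟩ : ∃ t, 0 ≤ t ∧ u = (1 + δ) * R + t := ⟨u - (1 + δ) * R, by linarith, by ring⟩
    have a0 : δ * R / 4 + t ≤ (1 + δ) * R + t - s := by
      have : (1 + δ) * R - (1 + 3 * δ / 4) * R = δ * R / 4 := by ring
      linarith
    have a3 : ∀ v : ℝ, δ * R / 4 + t ≤ v →
        |v| * (12 * (1 + δ) * (1 + R)) ≥ δ * R * (1 + ((1 + δ) * R + t)) := by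
      intro v hv
      have b0 : v ≤ |v| := le_abs_self v
      have b2 : (δ * R / 4 + t) * (12 * (1 + δ) * (1 + R)) ≤ |v| * (12 * (1 + δ) * (1 + R)) :=
        mul_le_mul_of_nonneg_right (hv.trans b0) (by positivity)
      have b3 : δ * R * (1 + ((1 + δ) * R + t)) ≤ (δ * R / 4 + t) * (12 * (1 + δ) * (1 + R)) := by
        have c1 : δ * R * (1 + (1 + δ) * R) ≤ δ * R * ((1 + δ) * (1 + R)) := by
          apply mul_le_mul_of_nonneg_left _ hδR.le
          nlinarith
        have c2 : δ * R * t ≤ t * (12 * (1 + δ) * (1 + R)) := by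
          have : δ * R ≤ 12 * (1 + δ) * (1 + R) := by nlinarith
          nlinarith
        have c3 : 0 ≤ δ * R * ((1 + δ) * (1 + R)) := by positivity
        nlinarith
      linarith
    have a1 : δ * R / 12 ≤ |(1 + δ) * R + t - s| := by
      refine le_trans ?_ (le_abs_self _)
      linarith
    have a2 : δ * R / 12 ≤ |(1 + δ) * R + t + s| := by
      refine le_trans ?_ (le_abs_self _)
      linarith
    exact ⟨⟨a1, key _ a1 (a3 _ a0)⟩, ⟨a2, key _ a2 (a3 _ (by linarith))⟩⟩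

/-- the averaged kernel outside the window -/
theorem hh_out {b : ℝ → ℝ} (hb : Continuous b) {K q δ R u : ℝ} (hq : 0 ≤ K * q) (hδ : 0 < δ)
    (hR : 1 ≤ R) (ht : ∀ u, δ * R / 12 ≤ |u| → b u ≤ K * q * (δ * R / 12 / |u|) ^ 4) (hu : 0 < u)
    (hW : u ∉ Ioo R ((1 + δ) * R)) :
    hh b ((1 + δ / 4) * R) ((1 + 3 * δ / 4) * R) u ≤
      K * q * (δ * R) * ((1 + δ) * (1 + R) / (1 + u)) ^ 4 := by
  have hδR : 0 < δ * R := by positivity
  have h1 : ∀ v : ℝ, δ * R / 12 ≤ |v| → δ * R / 12 / |v| ≤ (1 + δ) * (1 + R) / (1 + u) →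
      b v ≤ K * q * ((1 + δ) * (1 + R) / (1 + u)) ^ 4 := by
    intro v h2 h3
    refine (ht v h2).trans (mul_le_mul_of_nonneg_left ?_ hq)
    exact pow_le_pow_left₀ (by positivity) h3 4
  refine (hh_le hb (by nlinarith) u (K * q * ((1 + δ) * (1 + R) / (1 + u)) ^ 4) ?_).trans
    (le_of_eq (by ring))
  intro s hs
  obtain ⟨⟨a1, a2⟩, a3, a4⟩ := ratio_out hδ hR hu hW hs
  exact ⟨h1 _ a1 a2, h1 _ a3 a4⟩

/-- decay of the averaged kernel -/
theorem hh_dec {b : ℝ → ℝ} (hb : Continuous b) {K D x y : ℝ} (hK : 0 ≤ K) (hD : 1 ≤ D)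
    (hxy : x ≤ y) (hDy : D ≤ y) (hx : 0 ≤ x) (h0 : ∀ u, 0 ≤ b u) (hbK : ∀ u, b u ≤ K)
    (ht : ∀ u, D ≤ |u| → b u ≤ K * (D / |u|) ^ 4) (u : ℝ) :
    |hh b x y u| ≤ 2 * K * (y - x) * ((4 * D) ^ 4 + (1 + 2 * y) ^ 3) / (1 + |u|) ^ 3 := by
  rw [abs_of_nonneg (hh_nonneg h0 hxy u), le_div_iff₀ (by positivity)]
  have hu0 := abs_nonneg u
  rcases lt_or_ge |u| (2 * y) with h | h
  · have h1 : hh b x y u ≤ 2 * K * (y - x) :=
      hh_le hb hxy u K fun s _ => ⟨hbK _, hbK _⟩
    have h2 : (1 + |u|) ^ 3 ≤ (4 * D) ^ 4 + (1 + 2 * y) ^ 3 := by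
      have : (1 + |u|) ^ 3 ≤ (1 + 2 * y) ^ 3 := pow_le_pow_left₀ (by positivity) (by linarith) 3
      have h3 : 0 ≤ (4 * D) ^ 4 := by positivity
      linarith
    exact mul_le_mul h1 h2 (by positivity) (by
      have : 0 ≤ y - x := by linarith
      positivity)
  · have h1 : hh b x y u ≤ 2 * (K * (4 * D / (1 + |u|)) ^ 4) * (y - x) := by
      refine hh_le hb hxy u _ fun s hs => ?_
      have key : ∀ v : ℝ, |u| / 2 ≤ |v| → b v ≤ K * (4 * D / (1 + |u|)) ^ 4 := by
        intro v hv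
        refine (ht v (by linarith)).trans (mul_le_mul_of_nonneg_left ?_ hK)
        refine pow_le_pow_left₀ (by positivity) ?_ 4
        rw [div_le_div_iff₀ (by linarith) (by linarith)]
        nlinarith
      have hs1 : |s| ≤ |u| / 2 := by
        rw [abs_of_nonneg (by linarith [hs.1])]
        linarith [hs.2]
      constructor
      · apply key
        have := abs_sub_abs_le_abs_sub u s
        linarith
      · apply key
        have := abs_sub_abs_le_abs_sub u (-s)
        rw [abs_neg, sub_neg_eq_add] at this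
        linarith
    have h2 : 2 * (K * (4 * D / (1 + |u|)) ^ 4) * (y - x) * (1 + |u|) ^ 3 ≤
        2 * K * (y - x) * ((4 * D) ^ 4 + (1 + 2 * y) ^ 3) := by
      have e1 : 2 * (K * (4 * D / (1 + |u|)) ^ 4) * (y - x) * (1 + |u|) ^ 3 =
          2 * K * (y - x) * ((4 * D) ^ 4 / (1 + |u|)) := by
        field_simp
      rw [e1]
      refine mul_le_mul_of_nonneg_left ?_ (by
        have : 0 ≤ y - x := by linarith
        positivity)
      have e2 : (4 * D) ^ 4 / (1 + |u|) ≤ (4 * D) ^ 4 := div_le_self (by positivity) (by linarith)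
      have hy0 : 0 ≤ y := by linarith
      have e3 : 0 ≤ (1 + 2 * y) ^ 3 := by positivity
      linarith
    exact (mul_le_mul_of_nonneg_right h1 (by positivity)).trans h2

/-- the estimate for one window -/
theorem window {b E : ℝ → ℝ} (hb : Continuous b) {K q δ R C0 η0 σ : ℝ} (hK : 0 < K) (hq0 : 0 ≤ q)
    (hq1 : q ≤ 1) (hδ : 0 < δ) (hR : 1 ≤ R) (hD : 1 ≤ δ * R / 12) (hC0 : 0 < C0) (hη0 : 0 ≤ η0)
    (hσ : σ = 1 ∨ σ = -1) (h0 : ∀ u, 0 ≤ b u) (hbK : ∀ u, b u ≤ K) (hbi : Integrable b)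
    (hb1 : ∫ u, b u = 1)
    (ht : ∀ u, δ * R / 12 ≤ |u| → b u ≤ K * q * (δ * R / 12 / |u|) ^ 4)
    (hhalf : K * q * (2 * (δ * R / 12) ^ 2) * Real.pi ≤ 1 / 2)
    (hE : Gr E C0)
    (hz : ∫ u in Ioi (0 : ℝ), hh b ((1 + δ / 4) * R) ((1 + 3 * δ / 4) * R) u * E u = 0)
    (hone : ∀ᵐ u ∂(volume.restrict (Ioo R ((1 + δ) * R))), -η0 ≤ σ * E u) :
    ∫ u in Ioo ((1 + δ / 3) * R) ((1 + 2 * δ / 3) * R), |E u| ≤
      2 * (K * δ * (1 + δ) ^ 4 * C0 * Real.pi * q * (1 + R) ^ 5) + 2 * η0 * (K * (δ * R) ^ 2) +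
        η0 * (δ * R) := by
  obtain ⟨hEm, hEb⟩ := hE
  set x := (1 + δ / 4) * R with hx
  set y := (1 + 3 * δ / 4) * R with hy
  have hδR : 0 < δ * R := by positivity
  have hxy : x ≤ y := by rw [hx, hy]; linarith
  have hyx : y - x = δ * R / 2 := by rw [hx, hy]; ring
  have hx0 : 0 ≤ x := by rw [hx]; positivity
  have hDy : δ * R / 12 ≤ y := by rw [hy]; linarith
  have hKq : 0 ≤ K * q := by positivity
  have hcont := hh_cont hb x y
  set h := hh b x y with hh'
  have hn : ∀ u, 0 ≤ h u := hh_nonneg h0 hxy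
  have ht' : ∀ u, δ * R / 12 ≤ |u| → b u ≤ K * (δ * R / 12 / |u|) ^ 4 := by
    intro u hu
    refine (ht u hu).trans (mul_le_mul_of_nonneg_right ?_ (by positivity))
    exact mul_le_of_le_one_right hK.le hq1
  -- integrability
  have hmeas : AEStronglyMeasurable (fun u => h u * E u) (volume.restrict (Ioi (0 : ℝ))) :=
    (hcont.measurable.mul hEm).aestronglyMeasurable
  have hint : IntegrableOn (fun u => h u * E u) (Ioi 0) := by
    set K' := 2 * K * (y - x) * ((4 * (δ * R / 12)) ^ 4 + (1 + 2 * y) ^ 3) with hK'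
    have hK'0 : 0 ≤ K' := by
      have h1 : 0 ≤ y - x := by linarith
      have h2 : 0 ≤ y := by linarith
      positivity
    refine Integrable.mono' ((integrable_inv_one_add_sq.const_mul (K' * C0)).integrableOn) hmeas ?_
    filter_upwards [hEb, ae_restrict_mem measurableSet_Ioi] with u hu hu0
    rw [mem_Ioi] at hu0
    rw [Real.norm_eq_abs, abs_mul]
    have h1 := hh_dec hb hK.le hD hxy hDy hx0 h0 hbK ht' u
    rw [abs_of_pos hu0] at h1
    calc |h u| * |E u| ≤ K' / (1 + u) ^ 3 * (C0 * (1 + u)) :=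
          mul_le_mul h1 hu (abs_nonneg _) (by positivity)
      _ = K' * C0 * ((1 + u) ^ 2)⁻¹ := by field_simp
      _ ≤ K' * C0 * (1 + u ^ 2)⁻¹ := by
          refine mul_le_mul_of_nonneg_left ?_ (by positivity)
          exact inv_anti₀ (by positivity) (by linarith [sq_nonneg u, add_sq 1 u])
  set W := Ioo R ((1 + δ) * R) with hW
  have hWs : W ⊆ Ioi 0 := fun u hu => lt_trans (by linarith) hu.1
  have hWm : MeasurableSet W := measurableSet_Ioo
  have hdiff := setIntegral_sdiff hWm hint hWs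
  -- outside
  set T := K * δ * (1 + δ) ^ 4 * C0 * Real.pi * q * (1 + R) ^ 5 with hT
  have hout : |∫ u in Ioi 0 \ W, h u * E u| ≤ T := by
    rw [← Real.norm_eq_abs]
    set c := K * q * (δ * R) * ((1 + δ) * (1 + R)) ^ 4 * C0 with hc
    have hc0 : 0 ≤ c := by positivity
    have h1 : ‖∫ u in Ioi 0 \ W, h u * E u‖ ≤ ∫ u in Ioi 0 \ W, c * (1 + u ^ 2)⁻¹ := by
      refine norm_integral_le_of_norm_le ((integrable_inv_one_add_sq.const_mul c).integrableOn) ?_
      have hEb' : ∀ᵐ u ∂(volume.restrict (Ioi 0 \ W)), |E u| ≤ C0 * (1 + u) :=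
        ae_restrict_of_ae_restrict_of_subset sdiff_subset hEb
      filter_upwards [hEb', ae_restrict_mem (measurableSet_Ioi.diff hWm)] with u hu huW
      have hu0 : 0 < u := huW.1
      rw [Real.norm_eq_abs, abs_mul, abs_of_nonneg (hn u)]
      have h2 := hh_out hb hKq hδ hR ht hu0 huW.2
      calc h u * |E u| ≤ K * q * (δ * R) * ((1 + δ) * (1 + R) / (1 + u)) ^ 4 * (C0 * (1 + u)) :=
            mul_le_mul h2 hu (abs_nonneg _) (by positivity)
        _ = c * ((1 + u) ^ 3)⁻¹ := by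
            rw [hc]
            field_simp
        _ ≤ c * (1 + u ^ 2)⁻¹ := by
            refine mul_le_mul_of_nonneg_left ?_ hc0
            refine inv_anti₀ (by positivity) ?_
            have g1 : 0 < u ^ 2 := by positivity
            have g2 : 0 < u ^ 3 := by positivity
            have g3 : (1 + u) ^ 3 = 1 + 3 * u + 3 * u ^ 2 + u ^ 3 := by ring
            linarith
    have h2 : ∫ u in Ioi 0 \ W, c * (1 + u ^ 2)⁻¹ ≤ ∫ u : ℝ, c * (1 + u ^ 2)⁻¹ :=
      setIntegral_le_integral (integrable_inv_one_add_sq.const_mul _)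
        (Eventually.of_forall fun t => by positivity)
    have h3 : ∫ u : ℝ, c * (1 + u ^ 2)⁻¹ = c * Real.pi := by
      rw [integral_const_mul, integral_univ_inv_one_add_sq]
    have h4 : c * Real.pi ≤ T := by
      have e1 : c * Real.pi = (K * δ * (1 + δ) ^ 4 * C0 * Real.pi * q) * (R * (1 + R) ^ 4) := by
        rw [hc]; ring
      rw [e1, hT]
      refine mul_le_mul_of_nonneg_left ?_ (by positivity)
      have g1 : 0 ≤ (1 + R) ^ 4 := by positivity
      have g2 : (1 + R) ^ 5 = (1 + R) ^ 4 + R * (1 + R) ^ 4 := by ring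
      linarith
    linarith
  rw [hz, zero_sub] at hdiff
  rw [hdiff, abs_neg] at hout
  -- inside
  have hintW : IntegrableOn (fun u => h u * E u) W := hint.mono_set hWs
  have hfin : volume W < ⊤ := by rw [hW, Real.volume_Ioo]; exact ENNReal.ofReal_lt_top
  have hhb : ∀ u, h u ≤ K * (δ * R) := by
    intro u
    have := hh_le hb hxy u K fun s _ => ⟨hbK _, hbK _⟩
    rw [hyx] at this
    linarith
  have hhint : IntegrableOn h W := by
    refine Integrable.mono' (g := fun _ => K * (δ * R)) (integrableOn_const hfin.ne)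
      hcont.aestronglyMeasurable (Eventually.of_forall fun u => ?_)
    rw [Real.norm_eq_abs, abs_of_nonneg (hn u)]
    exact hhb u
  have hvolW : volume.real W = δ * R := by
    rw [hW, Real.volume_real_Ioo_of_le (by linarith)]
    ring
  have hhW : ∫ u in W, h u ≤ K * (δ * R) ^ 2 := by
    have h1 : ∫ u in W, h u ≤ ∫ u in W, K * (δ * R) :=
      setIntegral_mono_on hhint (integrableOn_const hfin.ne) hWm fun u _ => hhb u
    rw [setIntegral_const, smul_eq_mul, hvolW] at h1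
    linarith
  have hG : ∫ u in W, h u * (σ * E u + η0) ≤ T + η0 * (K * (δ * R) ^ 2) := by
    have e1 : ∫ u in W, h u * (σ * E u + η0) = σ * (∫ u in W, h u * E u) + η0 * ∫ u in W, h u := by
      rw [← integral_const_mul, ← integral_const_mul, ← integral_add (hintW.const_mul σ)
        (hhint.const_mul η0)]
      refine integral_congr_ae (Eventually.of_forall fun u => ?_)
      simp only
      ring
    rw [e1]
    have e2 : σ * (∫ u in W, h u * E u) ≤ |∫ u in W, h u * E u| := by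
      rcases hσ with rfl | rfl
      · rw [one_mul]; exact le_abs_self _
      · rw [neg_one_mul]; exact neg_le_abs _
    have e3 := mul_le_mul_of_nonneg_left hhW hη0
    linarith
  have hGi : IntegrableOn (fun u => h u * (σ * E u + η0)) W := by
    have : IntegrableOn (fun u => σ * (h u * E u) + η0 * h u) W :=
      (hintW.const_mul σ).add (hhint.const_mul η0)
    refine this.congr (Eventually.of_forall fun u => ?_)
    simp only
    ring
  -- the middle
  set V := Ioo ((1 + δ / 3) * R) ((1 + 2 * δ / 3) * R) with hV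
  have hVW : V ⊆ W := by
    intro u hu
    constructor
    · exact lt_trans (by linarith) hu.1
    · exact lt_trans hu.2 (by linarith)
  have hVm : MeasurableSet V := measurableSet_Ioo
  have hlow : ∀ u ∈ V, 1 / 2 ≤ h u := by
    intro u hu
    have h1 := mass hKq hbi hb1 hD ht
    have h2 := hh_low hb h0 (x := x) (y := y) (u := u) (D := δ * R / 12) (by positivity)
      (by rw [hx]; linarith [hu.1]) (by rw [hy]; linarith [hu.2])
    linarith
  have hm1 : ∫ u in V, h u * (σ * E u + η0) ≤ ∫ u in W, h u * (σ * E u + η0) := by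
    refine setIntegral_mono_set hGi ?_ (LE.le.eventuallyLE hVW)
    filter_upwards [hone] with u hu
    exact mul_nonneg (hn u) (by linarith)
  have hfinV : volume V < ⊤ := by rw [hV, Real.volume_Ioo]; exact ENNReal.ofReal_lt_top
  have hEV : IntegrableOn E V := by
    refine Integrable.mono' (g := fun _ => C0 * (1 + (1 + δ) * R)) (integrableOn_const hfinV.ne)
      hEm.aestronglyMeasurable ?_
    have hEb' : ∀ᵐ u ∂(volume.restrict V), |E u| ≤ C0 * (1 + u) :=
      ae_restrict_of_ae_restrict_of_subset (hVW.trans hWs) hEb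
    filter_upwards [hEb', ae_restrict_mem hVm] with u hu huV
    rw [Real.norm_eq_abs]
    refine hu.trans (mul_le_mul_of_nonneg_left ?_ hC0.le)
    linarith [(hVW huV).2]
  have hone' : ∀ᵐ u ∂(volume.restrict V), -η0 ≤ σ * E u :=
    ae_restrict_of_ae_restrict_of_subset hVW hone
  have hm2 : ∫ u in V, |E u| ≤ ∫ u in V, (2 * (h u * (σ * E u + η0)) + η0) := by
    refine integral_mono_ae hEV.abs (((hGi.mono_set hVW).const_mul 2).add
      (integrableOn_const hfinV.ne)) ?_
    filter_upwards [hone', ae_restrict_mem hVm] with u hu huV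
    have h1 := hlow u huV
    have h2 : |E u| ≤ (σ * E u + η0) + η0 := by
      rcases hσ with rfl | rfl
      · rw [abs_le]; constructor <;> linarith
      · rw [abs_le]; constructor <;> linarith
    have h3 : (σ * E u + η0) ≤ 2 * (h u * (σ * E u + η0)) := by
      have g1 : 0 ≤ σ * E u + η0 := by linarith
      have g2 := mul_le_mul_of_nonneg_right h1 g1
      linarith
    linarith
  have hvolV : volume.real V = δ * R / 3 := by
    rw [hV, Real.volume_real_Ioo_of_le (by linarith)]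
    ring
  have hm3 : ∫ u in V, (2 * (h u * (σ * E u + η0)) + η0) =
      2 * (∫ u in V, h u * (σ * E u + η0)) + η0 * (δ * R / 3) := by
    rw [integral_add ((hGi.mono_set hVW).const_mul 2) (integrableOn_const hfinV.ne),
      integral_const_mul, setIntegral_const, smul_eq_mul, hvolV]
    ring
  rw [hm3] at hm2
  have h5 : η0 * (δ * R / 3) ≤ η0 * (δ * R) := mul_le_mul_of_nonneg_left (by linarith) hη0
  linarith

theorem main : S_EXTE → S_BLI → S_KB → S_ONEE := by
  intro hEXT hBLI hKB C0 C δ ε Λ hC0 hC hδ hε hΛ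
  obtain ⟨K, hK, hKb⟩ := hKB Λ hΛ
  set m := min ε (Λ * δ / 48) with hm
  have hm0 : 0 < m := lt_min hε (by positivity)
  obtain ⟨c, hc, hpoly⟩ := poly_exp (m / 2) (by positivity) 5
  set A := 2 * (K * δ * (1 + δ) ^ 4 * C0 * Real.pi) + 2 * C * (K * δ ^ 2) + C * δ with hA
  have hA0 : 0 < A := by positivity
  refine ⟨A * c, m / 2, 1 + 12 / δ + 96 / (Λ * δ) + 1536 * 12 * K * Real.pi / (Λ ^ 3 * δ),
    by positivity, by positivity, by positivity, ?_⟩
  intro E hE hgap R σ hR1 hσ hone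
  have q1 : 0 < 12 / δ := by positivity
  have q2 : 0 < 96 / (Λ * δ) := by positivity
  have q3 : 0 < 1536 * 12 * K * Real.pi / (Λ ^ 3 * δ) := by positivity
  have hR : 1 ≤ R := by linarith
  have hR0 : 0 < R := by linarith
  have hRδ : 12 / δ ≤ R := by linarith
  have hRη : 96 / (Λ * δ) ≤ R := by linarith
  have hRK : 1536 * 12 * K * Real.pi / (Λ ^ 3 * δ) ≤ R := by linarith
  have hD : 1 ≤ δ * R / 12 := by
    rw [div_le_iff₀ hδ] at hRδ
    linarith
  have hηD : 8 ≤ Λ * (δ * R / 12) := by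
    rw [div_le_iff₀ (by positivity)] at hRη
    linarith
  obtain ⟨b, hb, _, hb0K, hbi, hb1, hBL, ht⟩ := hKb Λ (δ * R / 12) hΛ le_rfl hηD
  have hBLh := hBLI (Λ / 2) ((1 + δ / 4) * R) ((1 + 3 * δ / 4) * R) b (by positivity)
    (by linarith [mul_pos hδ hR0]) hBL
  set q := Real.exp (-(Λ * (δ * R / 12) / 4)) with hq
  have hq0 : 0 ≤ q := (Real.exp_pos _).le
  have hq1 : q ≤ 1 := Real.exp_le_one_iff.2 (by
    have : 0 ≤ Λ * (δ * R / 12) / 4 := by positivity
    linarith)
  have hDp : 0 < δ * R / 12 := by positivity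
  have hhalf : K * q * (2 * (δ * R / 12) ^ 2) * Real.pi ≤ 1 / 2 := by
    set D := δ * R / 12 with hD'
    have e1 := Real.pow_div_factorial_le_exp (Λ * D / 4) (by positivity) 3
    have e2 : q * Real.exp (Λ * D / 4) = 1 := by
      rw [hq, ← Real.exp_add]; simp
    have e3 : q * ((Λ * D / 4) ^ 3 / 6) ≤ 1 := by
      rw [← e2]
      refine mul_le_mul_of_nonneg_left ?_ hq0
      have : ((Nat.factorial 3 : ℕ) : ℝ) = 6 := by norm_num [Nat.factorial]
      rw [this] at e1
      exact e1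
    have e4 : 1536 * K * Real.pi ≤ Λ ^ 3 * D := by
      rw [div_le_iff₀ (by positivity)] at hRK
      rw [hD']
      linarith
    -- q D^2 (Λ^3 D) ≤ 384
    have e5 : q * D ^ 2 * (Λ ^ 3 * D) ≤ 384 := by
      have : q * ((Λ * D / 4) ^ 3 / 6) = q * D ^ 2 * (Λ ^ 3 * D) / 384 := by ring
      rw [this] at e3
      linarith
    have e6 : q * D ^ 2 * (1536 * K * Real.pi) ≤ 384 :=
      le_trans (mul_le_mul_of_nonneg_left e4 (by positivity)) e5
    linarith
  have hz : ∫ u in Ioi (0 : ℝ), hh b ((1 + δ / 4) * R) ((1 + 3 * δ / 4) * R) u * E u = 0 := by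
    refine hEXT E _ C0 Λ (Λ / 2) (2 * K * ((1 + 3 * δ / 4) * R - (1 + δ / 4) * R) *
      ((4 * (δ * R / 12)) ^ 4 + (1 + 2 * ((1 + 3 * δ / 4) * R)) ^ 3)) hE hgap (by positivity)
      (by linarith) hBLh ?_
    refine hh_dec hb hK.le hD (by linarith [mul_pos hδ hR0]) (by linarith [mul_pos hδ hR0])
      (by positivity) (fun u => (hb0K u).1) (fun u => (hb0K u).2) ?_
    intro u hu
    refine (ht u hu).trans (mul_le_mul_of_nonneg_right ?_ (by positivity))
    exact mul_le_of_le_one_right hK.le hq1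
  have hfin := window hb (η0 := C * Real.exp (-(ε * R))) hK hq0 hq1 hδ hR hD hC0 (by positivity) hσ
    (fun u => (hb0K u).1) (fun u => (hb0K u).2) hbi hb1 ht hhalf hE hz hone
  refine hfin.trans ?_
  have hqm : q ≤ Real.exp (-(m * R)) := by
    rw [hq]
    apply Real.exp_le_exp.2
    have : m * R ≤ Λ * δ / 48 * R := mul_le_mul_of_nonneg_right (min_le_right _ _) hR0.le
    linarith
  have hεm : Real.exp (-(ε * R)) ≤ Real.exp (-(m * R)) := by
    apply Real.exp_le_exp.2
    have : m * R ≤ ε * R := mul_le_mul_of_nonneg_right (min_le_left _ _) hR0.le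
    linarith
  have hp1 : 1 ≤ (1 + R) ^ 5 := one_le_pow₀ (by linarith)
  have hp2 : R ^ 2 ≤ (1 + R) ^ 5 := by
    calc R ^ 2 ≤ (1 + R) ^ 2 := pow_le_pow_left₀ hR0.le (by linarith) 2
      _ ≤ (1 + R) ^ 5 := pow_le_pow_right₀ (by linarith) (by norm_num)
  have hp3 : R ≤ (1 + R) ^ 5 := by
    calc R ≤ (1 + R) ^ 1 := by rw [pow_one]; linarith
      _ ≤ (1 + R) ^ 5 := pow_le_pow_right₀ (by linarith) (by norm_num)
  have hM := Real.exp_pos (-(m * R))
  have s1 : 2 * (K * δ * (1 + δ) ^ 4 * C0 * Real.pi * q * (1 + R) ^ 5) ≤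
      2 * (K * δ * (1 + δ) ^ 4 * C0 * Real.pi) * ((1 + R) ^ 5 * Real.exp (-(m * R))) := by
    have : 0 ≤ 2 * (K * δ * (1 + δ) ^ 4 * C0 * Real.pi) * (1 + R) ^ 5 := by positivity
    linarith [mul_le_mul_of_nonneg_left hqm this]
  have s2 : 2 * (C * Real.exp (-(ε * R))) * (K * (δ * R) ^ 2) ≤
      2 * C * (K * δ ^ 2) * ((1 + R) ^ 5 * Real.exp (-(m * R))) := by
    have h1 : R ^ 2 * Real.exp (-(ε * R)) ≤ (1 + R) ^ 5 * Real.exp (-(m * R)) :=
      mul_le_mul hp2 hεm (Real.exp_pos _).le (by positivity)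
    have h2 : 0 ≤ 2 * C * (K * δ ^ 2) := by positivity
    linarith [mul_le_mul_of_nonneg_left h1 h2]
  have s3 : C * Real.exp (-(ε * R)) * (δ * R) ≤
      C * δ * ((1 + R) ^ 5 * Real.exp (-(m * R))) := by
    have h1 : R * Real.exp (-(ε * R)) ≤ (1 + R) ^ 5 * Real.exp (-(m * R)) :=
      mul_le_mul hp3 hεm (Real.exp_pos _).le (by positivity)
    have h2 : 0 ≤ C * δ := by positivity
    linarith [mul_le_mul_of_nonneg_left h1 h2]
  have s4 : A * ((1 + R) ^ 5 * Real.exp (-(m * R))) ≤ A * c * Real.exp (-(m / 2 * R)) := by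
    have h1 := hpoly R hR0.le
    have h2 : (1 + R) ^ 5 * Real.exp (-(m * R)) ≤ c * Real.exp (m / 2 * R) * Real.exp (-(m * R)) :=
      mul_le_mul_of_nonneg_right h1 hM.le
    have h3 : c * Real.exp (m / 2 * R) * Real.exp (-(m * R)) = c * Real.exp (-(m / 2 * R)) := by
      rw [mul_assoc, ← Real.exp_add]
      ring_nf
    rw [h3] at h2
    have := mul_le_mul_of_nonneg_left h2 hA0.le
    linarith
  have s5 : A * ((1 + R) ^ 5 * Real.exp (-(m * R))) =
      2 * (K * δ * (1 + δ) ^ 4 * C0 * Real.pi) * ((1 + R) ^ 5 * Real.exp (-(m * R))) +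
      2 * C * (K * δ ^ 2) * ((1 + R) ^ 5 * Real.exp (-(m * R))) +
      C * δ * ((1 + R) ^ 5 * Real.exp (-(m * R))) := by
    rw [hA]; ring
  linarith

end W22.SW.OneE
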